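import Pool.Agent.AEC.StmtsB

open FirstOrder FirstOrder.Language Cardinal Set

universe u

namespace Pool.Agent.AEC.H32

open Pool.Agent.AEC

theorem dne (spt : SptStmt.{u}) : DneStmt.{u} := by
  intro L κ K E X A B e hX I _ g
  obtain ⟨s, hs, h, hh⟩ := spt L κ K E A I (g.comp e)
  have hsX : #s ≤ #X := hs.trans hX
  obtain ⟨f⟩ := (Cardinal.le_def _ _).1 hsX
  let θ0 : s ≃ Set.range f := Equiv.ofInjective f f.injective
  let inst : LinearOrder (Set.range f) := LinearOrder.lift' θ0.symm θ0.symm.injective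
  let j : LO X := ⟨Set.range f, inst⟩
  let θ : j.s ≃o s := { toEquiv := θ0.symm, map_rel_iff' := Iff.rfl }
  let v : j.s ↪o I := θ.toOrderEmbedding.trans (OrderEmbedding.subtype fun i => i ∈ s)
  refine ⟨⟨j, (E.map θ.symm.toOrderEmbedding).comp h⟩, I, inferInstance, v, g, fun x => ?_⟩
  show g (e x) = E.map v (E.map θ.symm.toOrderEmbedding (h x))
  have h1 : E.map (OrderEmbedding.subtype fun i => i ∈ s) (h x) =
      E.map v (E.map θ.symm.toOrderEmbedding (h x)) :=
    E.map_comp θ.symm.toOrderEmbedding v (OrderEmbedding.subtype fun i => i ∈ s) (fun i => by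
      show (OrderEmbedding.subtype fun i => i ∈ s) i =
        (OrderEmbedding.subtype fun i => i ∈ s) (θ (θ.symm i))
      rw [OrderIso.apply_symm_apply]) (h x)
  rw [← h1]
  exact (hh x).symm

end Pool.Agent.AEC.H32
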